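import Mathlib

set_option autoImplicit false
set_option maxRecDepth 100000

/-!
# The complement of the exceptional orbits is empty for seven pairs `(p, k)`

For `(p, k) = (3, 0), (5, 0), (5, 1), (5, 4), (7, 0), (7, 1), (11, 1)` the level set
`x ^ 2 + y ^ 2 + z ^ 2 - x y z - 2 = k` over the field with `p` elements is nonempty and is the union
of the exceptional orbits, so that its part outside of the exceptional orbits is empty, and not an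
orbit.
-/

namespace Pool.Agent.Results.MP_c86b5e_nt.EmptyComplement

/-- Triples of elements of the field with `p` elements. -/
abbrev V (p : ℕ) : Type := ZMod p × ZMod p × ZMod p

/-- The level `x ^ 2 + y ^ 2 + z ^ 2 - x y z - 2` of a triple. -/
def level {p : ℕ} (v : V p) : ZMod p :=
  v.1 ^ 2 + v.2.1 ^ 2 + v.2.2 ^ 2 - v.1 * v.2.1 * v.2.2 - 2

/-- The exchange of the first two coordinates. -/
def swapXY (p : ℕ) : Equiv.Perm (V p) where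
  toFun v := (v.2.1, v.1, v.2.2)
  invFun v := (v.2.1, v.1, v.2.2)
  left_inv _ := rfl
  right_inv _ := rfl

/-- The exchange of the last two coordinates. -/
def swapYZ (p : ℕ) : Equiv.Perm (V p) where
  toFun v := (v.1, v.2.2, v.2.1)
  invFun v := (v.1, v.2.2, v.2.1)
  left_inv _ := rfl
  right_inv _ := rfl

/-- The Vieta involution `(x, y, z) ↦ (x, y, x y - z)`. -/
def vieta (p : ℕ) : Equiv.Perm (V p) where
  toFun v := (v.1, v.2.1, v.1 * v.2.1 - v.2.2)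
  invFun v := (v.1, v.2.1, v.1 * v.2.1 - v.2.2)
  left_inv v := by ext <;> simp
  right_inv v := by ext <;> simp

/-- The group generated by the permutations of the coordinates and the Vieta involution. -/
def Gam (p : ℕ) : Subgroup (Equiv.Perm (V p)) :=
  Subgroup.closure {swapXY p, swapYZ p, vieta p}

/-- The triples whose orbits are the exceptional orbits. -/
def Exceptional {p : ℕ} (e : V p) : Prop :=
  e = (0, 0, 0) ∨ (∃ t : ZMod p, t ≠ 0 ∧ e = (t, 0, 0)) ∨ e = (1, 1, 0) ∨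
    (∃ s : ZMod p, s ^ 2 = 2 ∧ e = (s, 1, 0)) ∨
    ∃ r a b : ZMod p, r ^ 2 = 5 ∧ 2 * a = 1 + r ∧ 2 * b = 1 - r ∧
      (e = (a, b, 0) ∨ e = (a, 1, 0) ∨ e = (b, 1, 0))

/-- The level set of level `k`. -/
def M (p : ℕ) (k : ZMod p) : Set (V p) := {v | level v = k}

/-- The union of the exceptional orbits of level `k`. -/
def E (p : ℕ) (k : ZMod p) : Set (V p) :=
  {v | level v = k ∧ ∃ e : V p, Exceptional e ∧ v ∈ MulAction.orbit (Gam p) e}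

/-- One letter: the three generators. -/
def gen (p : ℕ) : ℕ → Equiv.Perm (V p)
  | 0 => swapXY p
  | 1 => swapYZ p
  | _ => vieta p

/-- The action of a word in the generators. -/
def act {p : ℕ} : List ℕ → V p → V p
  | [], v => v
  | g :: w, v => gen p g (act w v)

theorem gen_mem (p g : ℕ) : gen p g ∈ Gam p := by
  unfold gen
  split <;> exact Subgroup.subset_closure (by simp)

theorem act_mem {p : ℕ} (w : List ℕ) (v : V p) : act w v ∈ MulAction.orbit (Gam p) v := by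
  induction w with
  | nil => exact MulAction.mem_orbit_self v
  | cons g w ih =>
    obtain ⟨h, hh⟩ := ih
    refine ⟨⟨gen p g, gen_mem p g⟩ * h, ?_⟩
    simp only [act, mul_smul]
    rw [← hh]
    rfl


/-- Words. -/
def w3_0_0 : List (List ℕ) :=
  [[], [1], [2], [0, 1], [2, 1], [1, 2, 1], [2, 0, 1], [0, 1, 2, 1], [1, 2, 0, 1], [2, 1, 2,
    1], [0, 1, 2, 0, 1], [2, 0, 1, 2, 1], [2, 1, 2, 0, 1], [1, 2, 0, 1, 2, 1], [2, 0, 1, 2, 0,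
    1], [1, 2, 0, 1, 2, 0, 1]]

theorem cov3_0 : ∀ x y z : ZMod 3, level ((x, y, z) : V 3) = 0 →
    (∃ w ∈ w3_0_0, act w ((1, 1, 0) : V 3) = (x, y, z)) := by
  decide

/-- Words. -/
def w5_0_0 : List (List ℕ) :=
  [[], [1], [2], [0, 1], [2, 1], [1, 2, 1], [2, 0, 1], [0, 1, 2, 1], [1, 2, 0, 1], [2, 1, 2,
    1], [0, 1, 2, 0, 1], [2, 0, 1, 2, 1], [2, 1, 2, 0, 1], [1, 2, 0, 1, 2, 1], [2, 0, 1, 2, 0,
    1], [1, 2, 0, 1, 2, 0, 1]]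

theorem cov5_0 : ∀ x y z : ZMod 5, level ((x, y, z) : V 5) = 0 →
    (∃ w ∈ w5_0_0, act w ((1, 1, 0) : V 5) = (x, y, z)) := by
  decide

/-- Words. -/
def w5_1_0 : List (List ℕ) :=
  [[], [1], [2], [0, 1], [1, 2], [2, 1], [0, 1, 2], [1, 2, 1], [2, 0, 1], [2, 1, 2], [0, 1, 2,
    1], [1, 2, 0, 1], [2, 0, 1, 2], [2, 1, 2, 1], [0, 1, 2, 0, 1], [1, 2, 0, 1, 2], [1, 2, 1,
    2, 1], [2, 0, 1, 2, 1], [2, 1, 2, 0, 1], [0, 1, 2, 1, 2, 1], [1, 2, 0, 1, 2, 1], [2, 0, 1,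
    2, 0, 1], [2, 1, 2, 1, 2, 1], [0, 1, 2, 0, 1, 2, 1], [1, 2, 0, 1, 2, 0, 1], [2, 0, 1, 2,
    1, 2, 1], [2, 1, 2, 0, 1, 2, 1], [1, 2, 0, 1, 2, 1, 2, 1], [1, 2, 1, 2, 0, 1, 2, 1], [2,
    0, 1, 2, 0, 1, 2, 1], [2, 1, 2, 0, 1, 2, 0, 1], [0, 1, 2, 1, 2, 0, 1, 2, 1], [1, 2, 0, 1,
    2, 0, 1, 2, 1], [1, 2, 1, 2, 0, 1, 2, 0, 1], [0, 1, 2, 0, 1, 2, 0, 1, 2, 1], [0, 1, 2, 1,
    2, 0, 1, 2, 0, 1]]

theorem cov5_1 : ∀ x y z : ZMod 5, level ((x, y, z) : V 5) = 1 →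
    (∃ w ∈ w5_1_0, act w ((3, 3, 0) : V 5) = (x, y, z)) := by
  decide

/-- Words. -/
def w5_4_0 : List (List ℕ) :=
  [[], [0], [1, 0], [2, 1, 0], [1, 2, 1, 0], [0, 1, 2, 1, 0]]

theorem cov5_4 : ∀ x y z : ZMod 5, level ((x, y, z) : V 5) = 4 →
    (∃ w ∈ w5_4_0, act w ((1, 0, 0) : V 5) = (x, y, z)) := by
  decide

/-- Words. -/
def w7_0_0 : List (List ℕ) :=
  [[], [0], [1, 0], [2, 1, 0], [1, 2, 1, 0], [0, 1, 2, 1, 0]]

/-- Words. -/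
def w7_0_1 : List (List ℕ) :=
  [[], [1], [2], [0, 1], [2, 1], [1, 2, 1], [2, 0, 1], [0, 1, 2, 1], [1, 2, 0, 1], [2, 1, 2,
    1], [0, 1, 2, 0, 1], [2, 0, 1, 2, 1], [2, 1, 2, 0, 1], [1, 2, 0, 1, 2, 1], [2, 0, 1, 2, 0,
    1], [1, 2, 0, 1, 2, 0, 1]]

theorem cov7_0 : ∀ x y z : ZMod 7, level ((x, y, z) : V 7) = 0 →
    (∃ w ∈ w7_0_0, act w ((3, 0, 0) : V 7) = (x, y, z)) ∨
      (∃ w ∈ w7_0_1, act w ((1, 1, 0) : V 7) = (x, y, z)) := by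
  decide

/-- Words. -/
def w7_1_0 : List (List ℕ) :=
  [[], [0], [1], [2], [0, 1], [1, 0], [1, 2], [2, 0], [2, 1], [0, 1, 0], [1, 2, 1], [2, 0, 1],
    [2, 1, 0], [0, 1, 2, 1], [1, 2, 0, 1], [1, 2, 1, 0], [2, 0, 1, 0], [2, 1, 2, 1], [0, 1, 2,
    0, 1], [0, 1, 2, 1, 0], [1, 2, 0, 1, 0], [1, 2, 1, 2, 1], [2, 0, 1, 2, 1], [2, 1, 2, 0,
    1], [2, 1, 2, 1, 0], [0, 1, 2, 0, 1, 0], [0, 1, 2, 1, 2, 1], [1, 2, 0, 1, 2, 1], [2, 0, 1,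
    2, 0, 1], [2, 0, 1, 2, 1, 0], [2, 1, 2, 0, 1, 0], [0, 1, 2, 0, 1, 2, 1], [1, 2, 0, 1, 2,
    0, 1], [1, 2, 0, 1, 2, 1, 0], [2, 0, 1, 2, 0, 1, 0], [1, 2, 0, 1, 2, 0, 1, 0]]

theorem cov7_1 : ∀ x y z : ZMod 7, level ((x, y, z) : V 7) = 1 →
    (∃ w ∈ w7_1_0, act w ((3, 1, 0) : V 7) = (x, y, z)) := by
  decide

/-- Words. -/
def w11_1_0 : List (List ℕ) :=
  [[], [0], [1, 0], [2, 1, 0], [1, 2, 1, 0], [0, 1, 2, 1, 0]]

/-- Words. -/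
def w11_1_1 : List (List ℕ) :=
  [[], [0], [1], [2], [0, 1], [1, 0], [1, 2], [2, 0], [2, 1], [0, 1, 0], [0, 1, 2], [1, 2, 0],
    [1, 2, 1], [2, 0, 1], [2, 1, 0], [2, 1, 2], [0, 1, 2, 0], [0, 1, 2, 1], [1, 2, 0, 1], [1,
    2, 1, 0], [2, 0, 1, 0], [2, 0, 1, 2], [2, 1, 2, 0], [2, 1, 2, 1], [0, 1, 2, 0, 1], [0, 1,
    2, 1, 0], [1, 2, 0, 1, 0], [1, 2, 0, 1, 2], [1, 2, 1, 2, 1], [2, 0, 1, 2, 0], [2, 0, 1, 2,
    1], [2, 1, 2, 0, 1], [2, 1, 2, 1, 0], [0, 1, 2, 0, 1, 0], [0, 1, 2, 1, 2, 1], [1, 2, 0, 1,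
    2, 0], [1, 2, 0, 1, 2, 1], [1, 2, 1, 2, 1, 0], [2, 0, 1, 2, 0, 1], [2, 0, 1, 2, 1, 0], [2,
    1, 2, 0, 1, 0], [2, 1, 2, 1, 2, 1], [0, 1, 2, 0, 1, 2, 1], [0, 1, 2, 1, 2, 1, 0], [1, 2,
    0, 1, 2, 0, 1], [1, 2, 0, 1, 2, 1, 0], [2, 0, 1, 2, 0, 1, 0], [2, 0, 1, 2, 1, 2, 1], [2,
    1, 2, 0, 1, 2, 1], [2, 1, 2, 1, 2, 1, 0], [0, 1, 2, 0, 1, 2, 1, 0], [1, 2, 0, 1, 2, 0, 1,
    0], [1, 2, 0, 1, 2, 1, 2, 1], [1, 2, 1, 2, 0, 1, 2, 1], [2, 0, 1, 2, 0, 1, 2, 1], [2, 0,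
    1, 2, 1, 2, 1, 0], [2, 1, 2, 0, 1, 2, 0, 1], [2, 1, 2, 0, 1, 2, 1, 0], [0, 1, 2, 1, 2, 0,
    1, 2, 1], [1, 2, 0, 1, 2, 0, 1, 2, 1], [1, 2, 0, 1, 2, 1, 2, 1, 0], [1, 2, 1, 2, 0, 1, 2,
    0, 1], [1, 2, 1, 2, 0, 1, 2, 1, 0], [2, 0, 1, 2, 0, 1, 2, 1, 0], [2, 1, 2, 0, 1, 2, 0, 1,
    0], [0, 1, 2, 0, 1, 2, 0, 1, 2, 1], [0, 1, 2, 1, 2, 0, 1, 2, 0, 1], [0, 1, 2, 1, 2, 0, 1,
    2, 1, 0], [1, 2, 0, 1, 2, 0, 1, 2, 1, 0], [1, 2, 1, 2, 0, 1, 2, 0, 1, 0], [0, 1, 2, 0, 1,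
    2, 0, 1, 2, 1, 0], [0, 1, 2, 1, 2, 0, 1, 2, 0, 1, 0]]

theorem cov11_1 : ∀ x y z : ZMod 11, level ((x, y, z) : V 11) = 1 →
    (∃ w ∈ w11_1_0, act w ((5, 0, 0) : V 11) = (x, y, z)) ∨
      (∃ w ∈ w11_1_1, act w ((8, 4, 0) : V 11) = (x, y, z)) := by
  decide

/-- The level set is nonempty and is the union of the exceptional orbits. -/
def Covered (p : ℕ) (k : ZMod p) : Prop := (M p k).Nonempty ∧ M p k = E p k

theorem covered_of {p : ℕ} {k : ZMod p} {v : V p} (hv : level v = k)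
    (h : ∀ x y z : ZMod p, level ((x, y, z) : V p) = k →
      ∃ e : V p, Exceptional e ∧ ∃ w : List ℕ, act w e = (x, y, z)) : Covered p k := by
  refine ⟨⟨v, hv⟩, Set.Subset.antisymm ?_ fun u hu => hu.1⟩
  rintro ⟨x, y, z⟩ hu
  obtain ⟨e, he, w, hw⟩ := h x y z hu
  exact ⟨hu, e, he, hw ▸ act_mem w e⟩

theorem c3_0 : Covered 3 0 := by
  refine covered_of (v := (1, 1, 0)) (by decide) fun x y z h => ?_
  obtain ⟨w, -, hw⟩ := cov3_0 x y z h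
  exact ⟨_, Or.inr (Or.inr (Or.inl rfl)), w, hw⟩

theorem c5_0 : Covered 5 0 := by
  refine covered_of (v := (1, 1, 0)) (by decide) fun x y z h => ?_
  obtain ⟨w, -, hw⟩ := cov5_0 x y z h
  exact ⟨_, Or.inr (Or.inr (Or.inl rfl)), w, hw⟩

theorem c5_1 : Covered 5 1 := by
  refine covered_of (v := (3, 3, 0)) (by decide) fun x y z h => ?_
  obtain ⟨w, -, hw⟩ := cov5_1 x y z h
  exact ⟨_, Or.inr (Or.inr (Or.inr (Or.inr
    ⟨0, 3, 3, by decide, by decide, by decide, Or.inl rfl⟩))), w, hw⟩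

theorem c5_4 : Covered 5 4 := by
  refine covered_of (v := (1, 0, 0)) (by decide) fun x y z h => ?_
  obtain ⟨w, -, hw⟩ := cov5_4 x y z h
  exact ⟨_, Or.inr (Or.inl ⟨1, by decide, rfl⟩), w, hw⟩

theorem c7_0 : Covered 7 0 := by
  refine covered_of (v := (1, 1, 0)) (by decide) fun x y z h => ?_
  rcases cov7_0 x y z h with ⟨w, -, hw⟩ | ⟨w, -, hw⟩
  · exact ⟨_, Or.inr (Or.inl ⟨3, by decide, rfl⟩), w, hw⟩
  · exact ⟨_, Or.inr (Or.inr (Or.inl rfl)), w, hw⟩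

theorem c7_1 : Covered 7 1 := by
  refine covered_of (v := (3, 1, 0)) (by decide) fun x y z h => ?_
  obtain ⟨w, -, hw⟩ := cov7_1 x y z h
  exact ⟨_, Or.inr (Or.inr (Or.inr (Or.inl ⟨3, by decide, rfl⟩))), w, hw⟩

theorem c11_1 : Covered 11 1 := by
  refine covered_of (v := (5, 0, 0)) (by decide) fun x y z h => ?_
  rcases cov11_1 x y z h with ⟨w, -, hw⟩ | ⟨w, -, hw⟩
  · exact ⟨_, Or.inr (Or.inl ⟨5, by decide, rfl⟩), w, hw⟩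
  · exact ⟨_, Or.inr (Or.inr (Or.inr (Or.inr
      ⟨4, 8, 4, by decide, by decide, by decide, Or.inl rfl⟩))), w, hw⟩

/-- The set of the triples of level `k` outside of the exceptional orbits is not always one orbit:
for seven pairs `(p, k)` it is empty. -/
theorem result :
    (¬ ∀ p : ℕ, p.Prime → p ≠ 2 → ∀ k : ZMod p, k ≠ 2 → k ≠ -2 →
      ∃ v : V p, M p k \ E p k = MulAction.orbit (Gam p) v) ∧
    Covered 3 0 ∧ Covered 5 0 ∧ Covered 5 1 ∧ Covered 5 4 ∧ Covered 7 0 ∧ Covered 7 1 ∧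
      Covered 11 1 := by
  refine ⟨fun H => ?_, c3_0, c5_0, c5_1, c5_4, c7_0, c7_1, c11_1⟩
  obtain ⟨v, hv⟩ := H 11 (by norm_num) (by norm_num) 1 (by decide) (by decide)
  have h1 : v ∈ M 11 1 \ E 11 1 := hv ▸ MulAction.mem_orbit_self v
  exact h1.2 (c11_1.2 ▸ h1.1)

end Pool.Agent.Results.MP_c86b5e_nt.EmptyComplement
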